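import Pool.Agent.Lib.MP_95ac01_nt.Iface

/-!
# MP_95ac01_nt: modules ASY and DIVQ
-/

set_option autoImplicit false

namespace Cub.H91

open Finset Filter

theorem floor_bounds {x : ℝ} (hx : 1 ≤ x) : x / 2 ≤ (⌊x⌋₊ : ℝ) ∧ (⌊x⌋₊ : ℝ) ≤ x := by
  refine ⟨?_, Nat.floor_le (by linarith)⟩
  have h1 : (1 : ℝ) ≤ (⌊x⌋₊ : ℝ) := by
    have : 1 ≤ ⌊x⌋₊ := Nat.floor_pos.2 hx
    exact_mod_cast this
  have h2 := Nat.lt_floor_add_one x
  linarith

theorem fl_bounds (a : ℝ) (ha : 0 ≤ a) {H : ℕ} (hH : 1 ≤ H) :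
    (H : ℝ) ^ a / 2 ≤ (⌊(H : ℝ) ^ a⌋₊ : ℝ) ∧ (⌊(H : ℝ) ^ a⌋₊ : ℝ) ≤ (H : ℝ) ^ a := by
  apply floor_bounds
  apply Real.one_le_rpow _ ha
  exact_mod_cast hH

theorem tendsto_fl (a : ℝ) (ha : 0 < a) :
    Tendsto (fun H : ℕ => (⌊(H : ℝ) ^ a⌋₊ : ℝ)) atTop atTop := by
  have h1 : Tendsto (fun H : ℕ => (H : ℝ) ^ a / 2) atTop atTop := by
    apply Tendsto.atTop_div_const (by norm_num)
    exact (tendsto_rpow_atTop ha).comp tendsto_natCast_atTop_atTop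
  refine tendsto_atTop_mono' _ ?_ h1
  filter_upwards [eventually_ge_atTop 1] with H hH
  exact (fl_bounds a ha.le hH).1

theorem tendsto_small (C b : ℝ) (hb : 0 < b) (f : ℕ → ℝ) (h0 : ∀ H, 0 ≤ f H)
    (hf : ∀ H : ℕ, 1 ≤ H → f H ≤ C * (H : ℝ) ^ (-b)) : Tendsto f atTop (nhds 0) := by
  have h1 : Tendsto (fun H : ℕ => C * (H : ℝ) ^ (-b)) atTop (nhds 0) := by
    have := ((tendsto_rpow_neg_atTop hb).comp tendsto_natCast_atTop_atTop).const_mul C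
    simpa using this
  refine squeeze_zero' (Eventually.of_forall h0) ?_ h1
  filter_upwards [eventually_ge_atTop 1] with H hH
  exact hf H hH

theorem asy : AsyStatement := by
  have key : ∀ (H : ℕ), 1 ≤ H → (0 : ℝ) < H := fun H hH => by exact_mod_cast hH
  have hA : ∀ H : ℕ, 1 ≤ H → (H : ℝ) ^ (0.4 : ℝ) / 2 ≤ (Af H : ℝ) ∧ (Af H : ℝ) ≤ (H : ℝ) ^ (0.4 : ℝ) :=
    fun H hH => fl_bounds 0.4 (by norm_num) hH
  have hB : ∀ H : ℕ, 1 ≤ H → (H : ℝ) ^ (1.02 : ℝ) / 2 ≤ (Bf H : ℝ) ∧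
      (Bf H : ℝ) ≤ (H : ℝ) ^ (1.02 : ℝ) :=
    fun H hH => fl_bounds 1.02 (by norm_num) hH
  have pw : ∀ (H : ℕ), 1 ≤ H → ∀ (a : ℝ) (k : ℕ), ((H : ℝ) ^ a) ^ k = (H : ℝ) ^ (a * k) := by
    intro H hH a k
    rw [Real.rpow_mul (key H hH).le, Real.rpow_natCast]
  refine ⟨tendsto_fl 0.4 (by norm_num), tendsto_fl 1.02 (by norm_num), ?_, ?_, ?_, ?_, ?_, ?_⟩
  · -- A^2 / H
    refine tendsto_small 1 0.2 (by norm_num) _ (fun H => by positivity) ?_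
    intro H hH
    have h0 := key H hH
    rw [div_le_iff₀ h0, one_mul]
    calc (Af H : ℝ) ^ 2 ≤ ((H : ℝ) ^ (0.4 : ℝ)) ^ 2 :=
          pow_le_pow_left₀ (Nat.cast_nonneg _) (hA H hH).2 2
      _ = (H : ℝ) ^ (0.8 : ℝ) := by rw [pw H hH]; norm_num
      _ = (H : ℝ) ^ (-0.2 : ℝ) * (H : ℝ) ^ (1 : ℝ) := by
          rw [← Real.rpow_add h0]; norm_num
      _ = _ := by rw [Real.rpow_one]
  · -- H / B
    refine tendsto_small 2 0.02 (by norm_num) _ (fun H => by positivity) ?_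
    intro H hH
    have h0 := key H hH
    have hb := (hB H hH).1
    have hp : 0 < (H : ℝ) ^ (1.02 : ℝ) := Real.rpow_pos_of_pos h0 _
    have hb0 : (0 : ℝ) < Bf H := lt_of_lt_of_le (by positivity) hb
    rw [div_le_iff₀ hb0]
    calc (H : ℝ) = (H : ℝ) ^ (1 : ℝ) := (Real.rpow_one _).symm
      _ = (H : ℝ) ^ (-0.02 : ℝ) * (H : ℝ) ^ (1.02 : ℝ) := by
          rw [← Real.rpow_add h0]; norm_num
      _ = 2 * (H : ℝ) ^ (-0.02 : ℝ) * ((H : ℝ) ^ (1.02 : ℝ) / 2) := by ring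
      _ ≤ 2 * (H : ℝ) ^ (-0.02 : ℝ) * Bf H := by
          apply mul_le_mul_of_nonneg_left hb
          have := Real.rpow_pos_of_pos h0 (-0.02)
          positivity
  · -- A^3 / B^2
    refine tendsto_small 4 0.84 (by norm_num) _ (fun H => by positivity) ?_
    intro H hH
    have h0 := key H hH
    have hb := (hB H hH).1
    have hp : 0 < (H : ℝ) ^ (1.02 : ℝ) := Real.rpow_pos_of_pos h0 _
    have hb0 : (0 : ℝ) < Bf H := lt_of_lt_of_le (by positivity) hb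
    rw [div_le_iff₀ (by positivity)]
    calc (Af H : ℝ) ^ 3 ≤ ((H : ℝ) ^ (0.4 : ℝ)) ^ 3 :=
          pow_le_pow_left₀ (Nat.cast_nonneg _) (hA H hH).2 3
      _ = (H : ℝ) ^ (1.2 : ℝ) := by rw [pw H hH]; norm_num
      _ = (H : ℝ) ^ (-0.84 : ℝ) * (H : ℝ) ^ (2.04 : ℝ) := by
          rw [← Real.rpow_add h0]; norm_num
      _ = (H : ℝ) ^ (-0.84 : ℝ) * ((H : ℝ) ^ (1.02 : ℝ)) ^ 2 := by rw [pw H hH]; norm_num
      _ = 4 * (H : ℝ) ^ (-0.84 : ℝ) * ((H : ℝ) ^ (1.02 : ℝ) / 2) ^ 2 := by ring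
      _ ≤ 4 * (H : ℝ) ^ (-0.84 : ℝ) * (Bf H : ℝ) ^ 2 := by
          apply mul_le_mul_of_nonneg_left (pow_le_pow_left₀ (by positivity) hb 2)
          have := Real.rpow_pos_of_pos h0 (-0.84)
          positivity
  · -- B / A^3
    refine tendsto_small 8 0.18 (by norm_num) _ (fun H => by positivity) ?_
    intro H hH
    have h0 := key H hH
    have ha := (hA H hH).1
    have hp : 0 < (H : ℝ) ^ (0.4 : ℝ) := Real.rpow_pos_of_pos h0 _
    have ha0 : (0 : ℝ) < Af H := lt_of_lt_of_le (by positivity) ha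
    rw [div_le_iff₀ (by positivity)]
    calc (Bf H : ℝ) ≤ (H : ℝ) ^ (1.02 : ℝ) := (hB H hH).2
      _ = (H : ℝ) ^ (-0.18 : ℝ) * (H : ℝ) ^ (1.2 : ℝ) := by
          rw [← Real.rpow_add h0]; norm_num
      _ = (H : ℝ) ^ (-0.18 : ℝ) * ((H : ℝ) ^ (0.4 : ℝ)) ^ 3 := by rw [pw H hH]; norm_num
      _ = 8 * (H : ℝ) ^ (-0.18 : ℝ) * ((H : ℝ) ^ (0.4 : ℝ) / 2) ^ 3 := by ring
      _ ≤ 8 * (H : ℝ) ^ (-0.18 : ℝ) * (Af H : ℝ) ^ 3 := by
          apply mul_le_mul_of_nonneg_left (pow_le_pow_left₀ (by positivity) ha 3)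
          have := Real.rpow_pos_of_pos h0 (-0.18)
          positivity
  · -- B^3 / A^8
    refine tendsto_small 256 0.14 (by norm_num) _ (fun H => by positivity) ?_
    intro H hH
    have h0 := key H hH
    have ha := (hA H hH).1
    have hp : 0 < (H : ℝ) ^ (0.4 : ℝ) := Real.rpow_pos_of_pos h0 _
    have ha0 : (0 : ℝ) < Af H := lt_of_lt_of_le (by positivity) ha
    rw [div_le_iff₀ (by positivity)]
    calc (Bf H : ℝ) ^ 3 ≤ ((H : ℝ) ^ (1.02 : ℝ)) ^ 3 :=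
          pow_le_pow_left₀ (Nat.cast_nonneg _) (hB H hH).2 3
      _ = (H : ℝ) ^ (3.06 : ℝ) := by rw [pw H hH]; norm_num
      _ = (H : ℝ) ^ (-0.14 : ℝ) * (H : ℝ) ^ (3.2 : ℝ) := by
          rw [← Real.rpow_add h0]; norm_num
      _ = (H : ℝ) ^ (-0.14 : ℝ) * ((H : ℝ) ^ (0.4 : ℝ)) ^ 8 := by rw [pw H hH]; norm_num
      _ = 256 * (H : ℝ) ^ (-0.14 : ℝ) * ((H : ℝ) ^ (0.4 : ℝ) / 2) ^ 8 := by ring
      _ ≤ 256 * (H : ℝ) ^ (-0.14 : ℝ) * (Af H : ℝ) ^ 8 := by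
          apply mul_le_mul_of_nonneg_left (pow_le_pow_left₀ (by positivity) ha 8)
          have := Real.rpow_pos_of_pos h0 (-0.14)
          positivity
  · filter_upwards [eventually_ge_atTop 1] with H hH
    unfold Af Bf
    apply Nat.floor_mono
    apply Real.rpow_le_rpow_of_exponent_le
    · exact_mod_cast hH
    · norm_num

theorem divq : DivQStatement := by
  intro w K d hd hdw hwK
  have hd0 : d ≠ 0 := by omega
  unfold qq
  have h1 : d = ∏ p ∈ d.primeFactors, p ^ d.factorization p :=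
    (Nat.prod_factorization_pow_eq_self hd0).symm
  rw [h1]
  have h2 : (∏ p ∈ d.primeFactors, p ^ d.factorization p) ∣ ∏ p ∈ d.primeFactors, p ^ K := by
    apply Finset.prod_dvd_prod_of_dvd
    intro p _
    apply pow_dvd_pow
    have := Nat.factorization_lt p hd0
    omega
  refine h2.trans (Finset.prod_dvd_prod_of_subset _ _ _ ?_)
  intro p hp
  have hpp := Nat.prime_of_mem_primeFactors hp
  have hpd := Nat.dvd_of_mem_primeFactors hp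
  rw [mem_filter, mem_Ioc]
  exact ⟨⟨hpp.pos, (Nat.le_of_dvd (by omega) hpd).trans hdw⟩, hpp⟩

end Cub.H91
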