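import Pool.Agent.Lib.MP_95ac01_nt.Iface

/-!
# MP_95ac01_nt: module CHEB
-/

set_option autoImplicit false

namespace Cub.H91

open Finset Filter

theorem cheb (hV : VarStatement) (hA : AsyStatement) (hD : DivQStatement) : ChebStatement := by
  obtain ⟨C₁, hC₁⟩ := hV
  obtain ⟨-, hBt, hA2, hHB, hA3, -, -, -⟩ := hA
  refine ⟨5 * C₁ + 1, by positivity, ?_⟩
  intro T c₀ hT hCT hc₀ w K hTw hwK
  have hT0 : (0 : ℝ) < T := by exact_mod_cast hT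
  have hTinv : (0 : ℝ) < 1 / T := by positivity
  -- eventual conditions
  have e1 : ∀ᶠ H : ℕ in atTop, (Af H : ℝ) ^ 2 / H < 1 / (C₁ + 1) :=
    hA2.eventually (gt_mem_nhds (by positivity))
  have e2 : ∀ᶠ H : ℕ in atTop, (Af H : ℝ) ^ 2 / H < 1 / T := hA2.eventually (gt_mem_nhds hTinv)
  have e3 : ∀ᶠ H : ℕ in atTop, (H : ℝ) / Bf H < 1 / T := hHB.eventually (gt_mem_nhds hTinv)
  have e4 : ∀ᶠ H : ℕ in atTop, (Af H : ℝ) ^ 3 / (Bf H : ℝ) ^ 2 < 1 / T :=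
    hA3.eventually (gt_mem_nhds hTinv)
  have e5 : ∀ᶠ H : ℕ in atTop, (1 : ℝ) ≤ Bf H := hBt.eventually_ge_atTop 1
  filter_upwards [e1, e2, e3, e4, e5, eventually_ge_atTop 1] with H h1 h2 h3 h4 h5 hH
  have hH0 : (0 : ℝ) < H := by exact_mod_cast hH
  have hB0 : (0 : ℝ) < Bf H := by linarith
  set W : ℕ := ⌊(1 / (T : ℝ) ^ 2) * H * (Bf H : ℝ) ^ 3⌋₊ with hW
  have hWle : (W : ℝ) ≤ (1 / (T : ℝ) ^ 2) * H * (Bf H : ℝ) ^ 3 := Nat.floor_le (by positivity)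
  have hTW : (T : ℝ) * W ≤ H * (Bf H : ℝ) ^ 3 / T := by
    calc (T : ℝ) * W ≤ T * ((1 / (T : ℝ) ^ 2) * H * (Bf H : ℝ) ^ 3) :=
          mul_le_mul_of_nonneg_left hWle hT0.le
      _ = H * (Bf H : ℝ) ^ 3 / T := by field_simp
  have hc1 : C₁ * Af H ^ 2 ≤ H := by
    have : (C₁ : ℝ) * (Af H : ℝ) ^ 2 ≤ H := by
      rw [div_lt_iff₀ hH0] at h1
      have h6 : ((C₁ : ℝ) + 1) * (Af H : ℝ) ^ 2 ≤ H := by
        have h7 : (0 : ℝ) < (C₁ : ℝ) + 1 := by positivity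
        calc ((C₁ : ℝ) + 1) * (Af H : ℝ) ^ 2 ≤ ((C₁ : ℝ) + 1) * (1 / ((C₁ : ℝ) + 1) * H) :=
              mul_le_mul_of_nonneg_left h1.le h7.le
          _ = H := by field_simp
      have h8 : (0 : ℝ) ≤ (Af H : ℝ) ^ 2 := by positivity
      linarith
    exact_mod_cast this
  have hc2 : C₁ * T * W ≤ H * Bf H ^ 3 := by
    have hCT' : (C₁ : ℝ) ≤ T := by
      have : (0 : ℝ) ≤ C₁ := Nat.cast_nonneg _
      linarith
    have h9 : (0 : ℝ) ≤ H * (Bf H : ℝ) ^ 3 := by positivity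
    have : (C₁ : ℝ) * T * W ≤ H * (Bf H : ℝ) ^ 3 := by
      calc (C₁ : ℝ) * T * W = C₁ * (T * W) := by ring
        _ ≤ C₁ * (H * (Bf H : ℝ) ^ 3 / T) :=
            mul_le_mul_of_nonneg_left hTW (Nat.cast_nonneg _)
        _ ≤ T * (H * (Bf H : ℝ) ^ 3 / T) :=
            mul_le_mul_of_nonneg_right hCT' (by positivity)
        _ = H * (Bf H : ℝ) ^ 3 := by field_simp
    exact_mod_cast this
  have hdiv : ∀ d, 1 ≤ d → d ≤ 2 * T → d ∣ qq 0 w K := fun d hd1 hd2 =>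
    hD w K d hd1 (hd2.trans hTw) hwK
  have hvar := hC₁ (Af H) (Bf H) H T (qq 0 w K) W hT hdiv hc1 hc2
  have hsm : (1 / T + T * W / (H * (Bf H : ℝ) ^ 3) + (Af H : ℝ) ^ 2 / H +
      (Af H : ℝ) ^ 3 / (Bf H : ℝ) ^ 2 + H / Bf H : ℝ) ≤ 5 / T := by
    have h10 : (T : ℝ) * W / (H * (Bf H : ℝ) ^ 3) ≤ 1 / T := by
      rw [div_le_iff₀ (by positivity)]
      calc (T : ℝ) * W ≤ H * (Bf H : ℝ) ^ 3 / T := hTW
        _ = 1 / T * (H * (Bf H : ℝ) ^ 3) := by ring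
    have h11 : (5 : ℝ) / T = 1 / T + 1 / T + 1 / T + 1 / T + 1 / T := by ring
    rw [h11]
    linarith
  have hvar2 : ∑ c ∈ box H, ((Nf (Af H) (Bf H) c : ℝ) - Mf (Af H) (Bf H) (qq 0 w K) W c) ^ 2 ≤
      C₁ * (H : ℝ) ^ 18 * (Bf H : ℝ) ^ 2 * (5 / T) :=
    hvar.trans (mul_le_mul_of_nonneg_left hsm (by positivity))
  set S := (box H).filter fun c => Nf (Af H) (Bf H) c = 0 ∧ c₀ * Bf H / H ≤
        Mf (Af H) (Bf H) (qq 0 w K) W c with hS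
  have hlow : (S.card : ℝ) * (c₀ * Bf H / H) ^ 2 ≤
      ∑ c ∈ box H, ((Nf (Af H) (Bf H) c : ℝ) - Mf (Af H) (Bf H) (qq 0 w K) W c) ^ 2 := by
    have h12 : (S.card : ℝ) * (c₀ * Bf H / H) ^ 2 ≤
        ∑ c ∈ S, ((Nf (Af H) (Bf H) c : ℝ) - Mf (Af H) (Bf H) (qq 0 w K) W c) ^ 2 := by
      rw [← nsmul_eq_mul]
      apply card_nsmul_le_sum
      intro c hc
      obtain ⟨-, hN, hM⟩ := mem_filter.1 hc
      rw [hN, Nat.cast_zero, zero_sub, neg_sq]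
      exact pow_le_pow_left₀ (by positivity) hM 2
    exact h12.trans (sum_le_sum_of_subset_of_nonneg (filter_subset _ _)
      (fun _ _ _ => sq_nonneg _))
  have h13 := hlow.trans hvar2
  have h14 : (S.card : ℝ) ≤ 5 * C₁ * (H : ℝ) ^ 20 / (T * c₀ ^ 2) := by
    rw [le_div_iff₀ (by positivity)]
    have h15 : (S.card : ℝ) * (c₀ * Bf H / H) ^ 2 * (T * (H : ℝ) ^ 2 / (Bf H : ℝ) ^ 2) ≤
        C₁ * (H : ℝ) ^ 18 * (Bf H : ℝ) ^ 2 * (5 / T) * (T * (H : ℝ) ^ 2 / (Bf H : ℝ) ^ 2) :=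
      mul_le_mul_of_nonneg_right h13 (by positivity)
    have h16 : (S.card : ℝ) * (c₀ * Bf H / H) ^ 2 * (T * (H : ℝ) ^ 2 / (Bf H : ℝ) ^ 2) =
        (S.card : ℝ) * (T * c₀ ^ 2) := by field_simp
    have h17 : C₁ * (H : ℝ) ^ 18 * (Bf H : ℝ) ^ 2 * (5 / T) * (T * (H : ℝ) ^ 2 / (Bf H : ℝ) ^ 2) =
        5 * C₁ * (H : ℝ) ^ 20 := by field_simp
    rw [h16, h17] at h15
    exact h15
  refine h14.trans ?_
  have h18 : (H : ℝ) ^ 20 ≤ (2 * (H : ℝ) + 1) ^ 20 :=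
    pow_le_pow_left₀ hH0.le (by linarith) 20
  calc 5 * C₁ * (H : ℝ) ^ 20 / (T * c₀ ^ 2) = 5 * C₁ / (T * c₀ ^ 2) * (H : ℝ) ^ 20 := by ring
    _ ≤ (5 * C₁ + 1) / (T * c₀ ^ 2) * (2 * (H : ℝ) + 1) ^ 20 := by
        apply mul_le_mul _ h18 (by positivity) (by positivity)
        apply div_le_div_of_nonneg_right _ (by positivity)
        linarith

end Cub.H91
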