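import Pool.Agent.Lib.MP_95ac01_nt.Iface

/-!
# MP_95ac01_nt: module PADAPPROX
-/

set_option autoImplicit false

namespace Cub.H91

open Finset Filter

theorem padapprox : PadApproxStatement := by
  intro p hp e c hZ hPC
  obtain ⟨x, hx0, hx⟩ := hZ
  have hpp : p.Prime := hp.out
  -- coordinate of maximal norm
  obtain ⟨i, -, hi⟩ := Finset.exists_max_image (univ : Finset (Fin 4)) (fun k => ‖x k‖)
    univ_nonempty
  have hxi : x i ≠ 0 := by
    intro h0
    apply hx0
    funext k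
    have := hi k (mem_univ k)
    rw [h0, norm_zero] at this
    exact norm_le_zero_iff.1 this
  have hn : ∀ k, ‖x k / x i‖ ≤ 1 := by
    intro k
    rw [norm_div]
    exact div_le_one_of_le₀ (hi k (mem_univ k)) (norm_nonneg _)
  -- scaled zero in `ℤ_p`
  set y : Fin 4 → ℤ_[p] := fun k => ⟨x k / x i, hn k⟩ with hy
  have hyi : y i = 1 := by
    apply Subtype.ext
    simp [hy, div_self hxi]
  have hy0 : ev (cc ℤ_[p] c) y = 0 := by
    have h1 : ev (fun m => (PadicInt.Coe.ringHom (p := p)) (cc ℤ_[p] c m))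
        (fun k => (PadicInt.Coe.ringHom (p := p)) (y k)) =
        (PadicInt.Coe.ringHom (p := p)) (ev (cc ℤ_[p] c) y) := ev_map _ _ _
    have h2 : (fun m => (PadicInt.Coe.ringHom (p := p)) (cc ℤ_[p] c m)) = cc ℚ_[p] c := by
      funext m
      simp [cc]
    have h3 : (fun k => (PadicInt.Coe.ringHom (p := p)) (y k)) = fun k => (x i)⁻¹ * x k := by
      funext k
      show x k / x i = (x i)⁻¹ * x k
      rw [div_eq_inv_mul]
    rw [h2, h3, ev_smul_x, hx, mul_zero] at h1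
    apply Subtype.ext
    exact h1.symm
  -- integer approximation
  set b : Fin 4 → ℤ := fun k => if k = i then 1 else ((y k).appr (2 * e + 1) : ℤ) with hb
  have hbi : b i = 1 := by simp [hb]
  have happ : ∀ k, ((p : ℤ_[p]) ^ (2 * e + 1)) ∣ y k - ((b k : ℤ) : ℤ_[p]) := by
    intro k
    by_cases hk : k = i
    · subst hk
      rw [hbi, hyi]
      simp
    · have h1 : b k = ((y k).appr (2 * e + 1) : ℤ) := by simp [hb, hk]
      rw [h1]
      have := PadicInt.appr_spec (2 * e + 1) (y k)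
      rw [Ideal.mem_span_singleton] at this
      simpa using this
  have hdvd : ∀ (n : ℕ) (z : ℤ), ((p : ℤ_[p]) ^ n ∣ (z : ℤ_[p])) ↔ ((p : ℤ) ^ n ∣ z) := by
    intro n z
    have h1 := PadicInt.norm_int_le_pow_iff_dvd (p := p) (k := z) (n := n)
    rw [PadicInt.norm_le_pow_iff_mem_span_pow, Ideal.mem_span_singleton] at h1
    rw [h1]
  have hevb : (p : ℤ) ^ (2 * e + 1) ∣ ev c b := by
    rw [← hdvd]
    have h1 : ((ev c b : ℤ) : ℤ_[p]) = ev (cc ℤ_[p] c) (cx ℤ_[p] b) := (ev_cast _ _ _).symm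
    rw [h1]
    -- compare with the value at `y` in the quotient ring
    have h2 : (Ideal.Quotient.mk (Ideal.span {(p : ℤ_[p]) ^ (2 * e + 1)}))
        (ev (cc ℤ_[p] c) (cx ℤ_[p] b)) =
        (Ideal.Quotient.mk (Ideal.span {(p : ℤ_[p]) ^ (2 * e + 1)})) (ev (cc ℤ_[p] c) y) := by
      rw [← ev_map, ← ev_map]
      congr 1
      funext k
      rw [eq_comm, Ideal.Quotient.eq, Ideal.mem_span_singleton]
      exact happ k
    rw [hy0, map_zero, Ideal.Quotient.eq_zero_iff_mem, Ideal.mem_span_singleton] at h2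
    exact h2
  have hpd : ∀ j, (p : ℤ) ^ (e + 1) ∣ pd c j b := by
    intro j
    by_contra hj
    apply hPC
    refine ⟨b, ⟨i, ?_⟩, ⟨j, hj⟩, hevb⟩
    rw [hbi]
    intro h1
    have := Int.le_of_dvd one_pos h1
    have h2 : (2 : ℤ) ≤ p := by exact_mod_cast hpp.two_le
    linarith
  -- reduce modulo `p ^ (e + 1)`
  have hP1 : (1 : ℤ) < (p : ℤ) ^ (e + 1) := by
    have : 1 < p ^ (e + 1) := Nat.one_lt_pow (by omega) hpp.one_lt
    exact_mod_cast this
  set a : Fin 4 → ℤ := fun k => b k % (p : ℤ) ^ (e + 1) with ha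
  have hab : ∀ k, (p : ℤ) ^ (e + 1) ∣ a k - b k := by
    intro k
    have := Int.emod_add_mul_ediv (b k) ((p : ℤ) ^ (e + 1))
    refine ⟨-(b k / (p : ℤ) ^ (e + 1)), ?_⟩
    simp only [ha]
    linarith
  refine ⟨i, a, ?_, ?_, ?_, ?_⟩
  · simp only [ha, hbi]
    exact Int.emod_eq_of_lt (by norm_num) hP1
  · intro k
    exact ⟨Int.emod_nonneg _ (by linarith), Int.emod_lt_of_pos _ (by linarith)⟩
  · have h1 := ev_congr_mod ((p : ℤ) ^ (e + 1)) c c a b (fun m => by simp) hab
    have h2 : (p : ℤ) ^ (e + 1) ∣ ev c b :=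
      (pow_dvd_pow (p : ℤ) (by omega : e + 1 ≤ 2 * e + 1)).trans hevb
    have h3 := dvd_add h1 h2
    rwa [sub_add_cancel] at h3
  · intro j
    have h1 : ∀ z : ℤ, (p : ℤ) ^ (e + 1) ∣ z ↔ ((z : ℤ) : ZMod (p ^ (e + 1))) = 0 := by
      intro z
      rw [ZMod.intCast_zmod_eq_zero_iff_dvd]
      push_cast
      rfl
    rw [h1, ← pd_cast]
    have h2 := hpd j
    rw [h1, ← pd_cast] at h2
    rw [← h2]
    congr 1
    funext k
    have h3 := (h1 _).1 (hab k)
    push_cast at h3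
    exact sub_eq_zero.1 h3

end Cub.H91
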