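import Pool.Agent.Lib.MP_95ac01_nt.Iface
import Pool.Agent.Lib.MP_95ac01_nt.H81.Fibre

/-!
# MP_95ac01_nt: module PADEXC
-/

set_option autoImplicit false

namespace Cub.H91

open Finset Filter

/-- multiples in an interval of integers -/
theorem count_mult (P H : ℕ) (hP : 1 ≤ P) (t : ℤ) :
    ((Icc (-(H : ℤ)) H).filter fun n => (P : ℤ) ∣ n + t).card ≤ (2 * H + 1) / P + 1 := by
  have hP0 : (0 : ℤ) < P := by exact_mod_cast hP
  have h1 : ((Icc (-(H : ℤ)) H).filter fun n => (P : ℤ) ∣ n + t).card ≤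
      ((Ioc (-(H : ℤ) - 1) H).filter fun n => n ≡ -t [ZMOD P]).card := by
    apply card_le_card
    intro n hn
    rw [mem_filter, mem_Icc] at hn
    rw [mem_filter, mem_Ioc]
    refine ⟨⟨by linarith [hn.1.1], hn.1.2⟩, ?_⟩
    have h2 : (P : ℤ) ∣ -t - n ↔ (P : ℤ) ∣ n + t := by
      rw [← dvd_neg]
      congr! 1
      ring
    exact Int.modEq_iff_dvd.2 (h2.2 hn.2)
  refine h1.trans ?_
  have h3 := Int.Ioc_filter_modEq_card (-(H : ℤ) - 1) H hP0 (-t)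
  have h4 : (((Ioc (-(H : ℤ) - 1) H).filter fun n => n ≡ -t [ZMOD P]).card : ℤ) ≤
      (2 * H + 1 : ℤ) / P + 1 := by
    rw [h3]
    apply max_le
    · set y : ℚ := (((-(H : ℤ) - 1 : ℤ) : ℚ) - ((-t : ℤ) : ℚ)) / ((P : ℤ) : ℚ) with hy
      set x : ℚ := (((H : ℤ) : ℚ) - ((-t : ℤ) : ℚ)) / ((P : ℤ) : ℚ) with hx
      have h5 : x = (((2 * H + 1 : ℤ) : ℚ) / ((P : ℤ) : ℚ)) + y := by
        rw [hx, hy, ← add_div]
        congr 1
        push_cast
        ring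
      have h6 := Int.le_floor_add_floor (((2 * H + 1 : ℤ) : ℚ) / ((P : ℤ) : ℚ)) y
      rw [← h5] at h6
      have h7 : ⌊((2 * H + 1 : ℤ) : ℚ) / ((P : ℤ) : ℚ)⌋ = (2 * H + 1 : ℤ) / P :=
        Rat.floor_intCast_div_natCast _ _
      rw [h7] at h6
      linarith
    · positivity
  exact_mod_cast h4

open Classical in
/-- the number of forms with a bad point modulo `P` -/
theorem bad_card (hF : Cub.H81.FibreStatement') (P H : ℕ) (hP : 1 ≤ P) :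
    ((box H).filter fun c => ∃ (i : Fin 4) (a : Fin 4 → ℤ), a i = 1 ∧
      (∀ k, 0 ≤ a k ∧ a k < (P : ℤ)) ∧ (P : ℤ) ∣ ev c a ∧ ∀ j, (P : ℤ) ∣ pd c j a).card ≤
      4 * (P ^ 3 * ((2 * H + 1) ^ 16 * ((2 * H + 1) / P + 1) ^ 4)) := by
  obtain ⟨D, hD⟩ : ∃ D : Set ℤ, ∀ z : ℤ, z ∈ D ↔ (P : ℤ) ∣ z :=
    ⟨{z | (P : ℤ) ∣ z}, fun _ => Iff.rfl⟩
  set T : Fin 4 → Finset (Fin 4 → ℤ) := fun i =>
    Fintype.piFinset fun k => if k = i then {1} else Ico (0 : ℤ) P with hT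
  set S : Fin 4 → (Fin 4 → ℤ) → Finset (Mon → ℤ) := fun i a =>
    (box H).filter fun c => ev (cc ℤ c) a ∈ D ∧ ∀ j, j ≠ i → pd (cc ℤ c) j a ∈ D with hS
  have hcc : ∀ c : Mon → ℤ, cc ℤ c = c := fun c => by funext m; simp [cc]
  have hTc : ∀ i, (T i).card = P ^ 3 := by
    intro i
    rw [hT]
    simp only [Fintype.card_piFinset]
    fin_cases i <;> simp [Fin.prod_univ_four] <;> ring
  have hTi : ∀ i, ∀ a ∈ T i, a i = 1 := by
    intro i a ha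
    have := (Fintype.mem_piFinset.1 ha) i
    simpa using this
  have hSc : ∀ i, ∀ a ∈ T i, (S i a).card ≤ (2 * H + 1) ^ 16 * ((2 * H + 1) / P + 1) ^ 4 := by
    intro i a ha
    have key := hF ℤ a i D ((2 * H + 1) / P + 1) H (hTi i a ha) (by
      intro t
      refine le_trans (card_le_card ?_) (count_mult P H hP t)
      intro n hn
      rw [mem_filter] at hn ⊢
      refine ⟨hn.1, ?_⟩
      have h := hn.2
      rw [hD, Int.cast_id] at h
      exact h)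
    refine le_trans (le_of_eq ?_) key
    rw [hS]
  have hsub : ((box H).filter fun c => ∃ (i : Fin 4) (a : Fin 4 → ℤ), a i = 1 ∧
      (∀ k, 0 ≤ a k ∧ a k < (P : ℤ)) ∧ (P : ℤ) ∣ ev c a ∧ ∀ j, (P : ℤ) ∣ pd c j a) ⊆
      univ.biUnion fun i => (T i).biUnion fun a => S i a := by
    intro c hc
    rw [mem_filter] at hc
    obtain ⟨hcb, i, a, hai, hak, hev, hpd⟩ := hc
    rw [mem_biUnion]
    refine ⟨i, mem_univ _, ?_⟩
    rw [mem_biUnion]
    refine ⟨a, ?_, ?_⟩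
    · rw [hT]
      refine Fintype.mem_piFinset.2 fun k => ?_
      by_cases hk : k = i
      · subst hk
        simp [hai]
      · simp [hk, hak k]
    · rw [hS]
      simp only [mem_filter]
      refine ⟨hcb, ?_, fun j _ => ?_⟩
      · rw [hcc, hD]; exact hev
      · rw [hcc, hD]; exact hpd j
  refine (card_le_card hsub).trans (card_biUnion_le.trans ?_)
  have h1 : ∀ i ∈ (univ : Finset (Fin 4)), ((T i).biUnion fun a => S i a).card ≤
      P ^ 3 * ((2 * H + 1) ^ 16 * ((2 * H + 1) / P + 1) ^ 4) := by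
    intro i _
    refine card_biUnion_le.trans ?_
    refine (sum_le_card_nsmul _ _ _ (hSc i)).trans ?_
    rw [hTc, smul_eq_mul]
  refine (sum_le_card_nsmul _ _ _ h1).trans ?_
  simp

theorem nbound (P H : ℕ) (hP1 : 1 ≤ P) (hPH : P ≤ H) :
    (((2 * H + 1) / P : ℕ) : ℝ) + 1 ≤ 2 * (2 * (H : ℝ) + 1) / P := by
  have hP0 : (0 : ℝ) < P := by exact_mod_cast hP1
  have h5 : (((2 * H + 1) / P : ℕ) : ℝ) ≤ (2 * (H : ℝ) + 1) / P := by
    have := @Nat.cast_div_le ℝ _ _ _ (2 * H + 1) P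
    push_cast at this
    exact this
  have h6 : (1 : ℝ) ≤ (2 * (H : ℝ) + 1) / P := by
    rw [le_div_iff₀ hP0]
    have h1 : (P : ℝ) ≤ H := by exact_mod_cast hPH
    have h2 : (0 : ℝ) ≤ H := Nat.cast_nonneg H
    linarith
  have h7 : 2 * (2 * (H : ℝ) + 1) / P = (2 * (H : ℝ) + 1) / P + (2 * (H : ℝ) + 1) / P := by ring
  rw [h7]
  linarith

theorem xpos (H : ℕ) : (0 : ℝ) < 2 * (H : ℝ) + 1 := by positivity

theorem numeric_aux (X N D P T : ℝ) (hXpos : 0 < X) (hP0 : 0 < P) (hT : 0 < T) (hTP : T ≤ P)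
    (hD : 0 ≤ D) (h2 : N ≤ 4 * (P ^ 3 * (X ^ 16 * (D + 1) ^ 4))) (h4 : D + 1 ≤ 2 * X / P) :
    N ≤ 64 / T * X ^ 20 := by
  have h8 : (D + 1) ^ 4 ≤ (2 * X / P) ^ 4 := pow_le_pow_left₀ (by linarith) h4 4
  refine h2.trans ?_
  calc 4 * (P ^ 3 * (X ^ 16 * (D + 1) ^ 4)) ≤
      4 * (P ^ 3 * (X ^ 16 * (2 * X / P) ^ 4)) := by gcongr
    _ = 64 * X ^ 20 / P := by
      field_simp
      ring
    _ ≤ 64 * X ^ 20 / T := by gcongr
    _ = 64 / T * X ^ 20 := by ring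

theorem numeric (N P e H : ℕ)
    (h1 : N ≤ 4 * (P ^ 3 * ((2 * H + 1) ^ 16 * ((2 * H + 1) / P + 1) ^ 4)))
    (hP1 : 1 ≤ P) (hP : 2 ^ (e + 1) ≤ P) (hPH : P ≤ H) :
    (N : ℝ) ≤ 64 / 2 ^ (e + 1) * (2 * (H : ℝ) + 1) ^ 20 := by
  have h3 := (Nat.cast_le (α := ℝ)).2 h1
  refine numeric_aux (2 * (H : ℝ) + 1) N (((2 * H + 1) / P : ℕ) : ℝ) P (2 ^ (e + 1)) (xpos H)
    (by exact_mod_cast hP1) (pow_pos two_pos _) (by exact_mod_cast hP) (Nat.cast_nonneg _) ?_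
    (nbound P H hP1 hPH)
  refine h3.trans (le_of_eq ?_)
  simp only [Nat.cast_mul, Nat.cast_pow, Nat.cast_add, Nat.cast_one, Nat.cast_ofNat]

open Classical in
/-- the same in real terms -/
theorem bad_card_real (hF : Cub.H81.FibreStatement') (p e H : ℕ) (hp : p.Prime)
    (hPH : p ^ (e + 1) ≤ H) :
    (((box H).filter fun c => ∃ (i : Fin 4) (a : Fin 4 → ℤ), a i = 1 ∧
      (∀ k, 0 ≤ a k ∧ a k < ((p ^ (e + 1) : ℕ) : ℤ)) ∧ ((p ^ (e + 1) : ℕ) : ℤ) ∣ ev c a ∧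
        ∀ j, ((p ^ (e + 1) : ℕ) : ℤ) ∣ pd c j a).card : ℝ) ≤
      64 / 2 ^ (e + 1) * (2 * (H : ℝ) + 1) ^ 20 :=
  numeric _ (p ^ (e + 1)) e H (bad_card hF (p ^ (e + 1)) H (Nat.one_le_pow _ _ hp.pos))
    (Nat.one_le_pow _ _ hp.pos) (Nat.pow_le_pow_left hp.two_le _) hPH

/-- PADEXC. -/
theorem padexc (hA : PadApproxStatement) (hF : Cub.H81.FibreStatement') : PadExcStatement := by
  classical
  intro ε hε w
  -- choose the level
  obtain ⟨e, he⟩ : ∃ e : ℕ, 64 * (w : ℝ) / 2 ^ (e + 1) ≤ ε := by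
    obtain ⟨n, hn⟩ := exists_nat_gt (64 * (w : ℝ) / ε)
    refine ⟨n, ?_⟩
    have h1 : (n : ℝ) ≤ 2 ^ (n + 1) := by
      have : n < 2 ^ (n + 1) :=
        (Nat.lt_two_pow_self).trans (Nat.pow_lt_pow_right (by norm_num) (Nat.lt_succ_self n))
      exact_mod_cast this.le
    rw [div_le_iff₀ (by positivity)]
    have h2 : 64 * (w : ℝ) < n * ε := (div_lt_iff₀ hε).1 hn
    nlinarith
  refine ⟨e, ?_⟩
  filter_upwards [eventually_ge_atTop (w ^ (e + 1))] with H hH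
  set X : ℝ := 2 * (H : ℝ) + 1 with hX
  have hXpos : 0 < X := by positivity
  set Bp : ℕ → Finset (Mon → ℤ) := fun p => (box H).filter fun c =>
    ∃ (i : Fin 4) (a : Fin 4 → ℤ), a i = 1 ∧
      (∀ k, 0 ≤ a k ∧ a k < ((p ^ (e + 1) : ℕ) : ℤ)) ∧ ((p ^ (e + 1) : ℕ) : ℤ) ∣ ev c a ∧
        ∀ j, ((p ^ (e + 1) : ℕ) : ℤ) ∣ pd c j a with hBp
  have hBpc : ∀ p ∈ (Icc 1 w).filter Nat.Prime, ((Bp p).card : ℝ) ≤ 64 / 2 ^ (e + 1) * X ^ 20 := by
    intro p hp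
    rw [mem_filter, mem_Icc] at hp
    have := bad_card_real hF p e H hp.2 ((Nat.pow_le_pow_left hp.1.2 _).trans hH)
    refine le_trans (le_of_eq ?_) this
    rw [hBp]
  have hsub : ((box H).filter fun c => LocZ c ∧ ¬ ∀ p : ℕ, p.Prime → p ≤ w → PC p e c) ⊆
      ((Icc 1 w).filter Nat.Prime).biUnion Bp := by
    intro c hc
    rw [mem_filter] at hc
    obtain ⟨hcb, hloc, hne⟩ := hc
    push Not at hne
    obtain ⟨p, hp, hpw, hPC⟩ := hne
    rw [mem_biUnion]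
    refine ⟨p, ?_, ?_⟩
    · rw [mem_filter, mem_Icc]
      exact ⟨⟨hp.one_le, hpw⟩, hp⟩
    · have : Fact p.Prime := ⟨hp⟩
      obtain ⟨i, a, hai, hak, hev, hpd⟩ := hA p e c (hloc.2 p) hPC
      rw [hBp]
      simp only [mem_filter]
      refine ⟨hcb, i, a, hai, ?_, ?_, ?_⟩
      · intro k; push_cast; exact hak k
      · push_cast; exact hev
      · intro j; push_cast; exact hpd j
  have hcard : (((box H).filter fun c => LocZ c ∧ ¬ ∀ p : ℕ, p.Prime → p ≤ w → PC p e c).card : ℝ) ≤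
      w * (64 / 2 ^ (e + 1) * X ^ 20) := by
    have h1 : ((((Icc 1 w).filter Nat.Prime).biUnion Bp).card : ℝ) ≤
        ∑ p ∈ (Icc 1 w).filter Nat.Prime, ((Bp p).card : ℝ) := by
      have h0 := card_biUnion_le (s := (Icc 1 w).filter Nat.Prime) (t := Bp)
      rw [← Nat.cast_sum]
      exact Nat.cast_le.2 h0
    have h2 : (((box H).filter fun c => LocZ c ∧ ¬ ∀ p : ℕ, p.Prime → p ≤ w → PC p e c).card : ℝ) ≤
        ((((Icc 1 w).filter Nat.Prime).biUnion Bp).card : ℝ) := by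
      exact Nat.cast_le.2 (card_le_card hsub)
    refine h2.trans (h1.trans ((sum_le_card_nsmul _ _ _ hBpc).trans ?_))
    rw [nsmul_eq_mul]
    have h3 : ((((Icc 1 w).filter Nat.Prime).card : ℕ) : ℝ) ≤ w := by
      have : ((Icc 1 w).filter Nat.Prime).card ≤ w := (card_filter_le _ _).trans (by simp)
      exact_mod_cast this
    gcongr
  refine le_trans ?_ (hcard.trans ?_)
  · apply le_of_eq
    congr! 2
  · have : (w : ℝ) * (64 / 2 ^ (e + 1) * X ^ 20) = 64 * (w : ℝ) / 2 ^ (e + 1) * X ^ 20 := by ring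
    rw [this]
    gcongr

end Cub.H91
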